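import Pool.Agent.H38.T35.Cards

/-!
# T6 En (MP_460e77_co, helper88): planar functions between groups of order `3 ^ 6`, `|3 G| = 27`: energies

`f : H → K` planar, `|H| = |K| = 3 ^ 6`, `G = H × K`, `9 G = 0`, `|3 G| = 27`; `sl 3 f v`, `v ∈ PP 3 H K`, are the slices.
All pairs `x ≠ x'` are counted by `pair_count` (model: Pool/Agent/H38/T35/Cards.lean).
-/

set_option autoImplicit false

namespace Pool.Agent.H88.T6

open Finset Pool.Agent.H88.Pl Pool.Agent.H16.RB Pool.Agent.H38.RX Pool.Agent.H38.T35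
open scoped Classical

variable {H K : Type*} [AddCommGroup H] [AddCommGroup K] [Fintype H] [Fintype K]

/-- order `3 ^ 6`, `9 G = 0`, `|3 G| = 27` -/
structure Sx (f : H → K) : Prop where
  hH : Fintype.card H = 3 ^ 6
  hK : Fintype.card K = 3 ^ 6
  hf : IsPlanar f
  h9 : ∀ g : H × K, 9 • g = 0
  hP : Nat.card (Set.range fun g : H × K => 3 • g) = 3 ^ 3

/-- number of points of the slice `v` on which `l` is `c` -/
noncomputable def nf (f : H → K) (v : H × K) (l : H × K →+ ZMod 3) (c : ZMod 3) : ℕ :=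
  ((sl 3 f v).filter fun x => l (gr f x) = c).card

theorem Sx.card_PP {f : H → K} (E : Sx f) : (PP 3 H K).card = 27 := by
  have h : (PP 3 H K).card = 3 ^ 3 := by
    rw [← E.hP, Nat.card_eq_fintype_card, ← Set.toFinset_card]
    congr 1
    ext v
    rw [PP, mem_filter, Set.mem_toFinset]
    exact ⟨fun h => h.2, fun h => ⟨mem_univ _, h⟩⟩
  rw [h]
  norm_num

theorem Sx.cards {f : H → K} (E : Sx f) :
    (TT H).card * (TT K).card = 27 ∧ (TT H).card * (ZZ H).card = 729 ∧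
      (TT K).card * (ZZ K).card = 729 := by
  have h1 := card_TZ H
  have h2 := card_TZ K
  rw [E.hH] at h1
  rw [E.hK] at h2
  refine ⟨?_, by rw [h1]; norm_num, by rw [h2]; norm_num⟩
  rw [← E.card_PP, ← card_product]
  congr 1
  ext g
  rw [mem_product, TT, TT, PP, mem_filter, mem_filter, mem_filter]
  constructor
  · rintro ⟨⟨-, a, ha⟩, -, b, hb⟩
    exact ⟨mem_univ _, (a, b), Prod.ext ha hb⟩
  · rintro ⟨-, ⟨a, b⟩, hab⟩
    exact ⟨⟨mem_univ _, a, congrArg Prod.fst hab⟩, mem_univ _, b, congrArg Prod.snd hab⟩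

private theorem mem_PP (f : H → K) (x : H) : 3 • gr f x ∈ PP 3 H K := by
  rw [PP, mem_filter]
  exact ⟨mem_univ _, _, rfl⟩

theorem Sx.sum_card {f : H → K} (E : Sx f) : ∑ v ∈ PP 3 H K, (sl 3 f v).card = 729 := by
  have h : Fintype.card H = 729 := by rw [E.hH]; norm_num
  rw [← h, ← card_univ]
  exact (card_eq_sum_card_fiberwise (f := fun x => 3 • gr f x) (t := PP 3 H K)
    fun x _ => mem_PP f x).symm

/-- the pairs `x ≠ x'` with `Q` of the difference -/
private theorem master {f : H → K} (E : Sx f) (Q : H × K → Prop) (hQ : ∀ g, Q g → 3 • g = 0) :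
    ∑ v ∈ PP 3 H K,
      ((sl 3 f v ×ˢ sl 3 f v).filter fun z => z.1 ≠ z.2 ∧ Q (gr f z.1 - gr f z.2)).card +
      (univ.filter fun k : K => Q (0, k)).card = (univ.filter fun g : H × K => Q g).card := by
  have h1 : ∑ v ∈ PP 3 H K,
      ((sl 3 f v ×ˢ sl 3 f v).filter fun z => z.1 ≠ z.2 ∧ Q (gr f z.1 - gr f z.2)).card =
      (univ.filter fun z : H × H => z.1 ≠ z.2 ∧ Q (gr f z.1 - gr f z.2)).card := by
    rw [card_eq_sum_card_fiberwise (f := fun z : H × H => 3 • gr f z.1) (t := PP 3 H K)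
      fun z _ => mem_PP f z.1]
    refine sum_congr rfl fun v _ => ?_
    congr 1
    ext z
    rw [mem_filter, mem_filter, mem_filter, mem_product, sl, mem_filter, mem_filter]
    constructor
    · rintro ⟨⟨⟨_, h2⟩, _, h3⟩, h4⟩
      exact ⟨⟨mem_univ _, h4⟩, h2⟩
    · rintro ⟨⟨_, h4⟩, h2⟩
      refine ⟨⟨⟨mem_univ _, h2⟩, mem_univ _, ?_⟩, h4⟩
      have h5 := hQ _ h4.2
      rw [smul_sub, sub_eq_zero] at h5
      rw [← h5]
      exact h2
  have h3 : (univ.filter fun z : H × H => z.1 ≠ z.2 ∧ Q (gr f z.1 - gr f z.2)).card =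
      (univ.filter fun g : H × K => g.1 ≠ 0 ∧ Q g).card := by
    convert pair_count f E.hf Q
  have h4 : (univ.filter fun g : H × K => g.1 ≠ 0 ∧ Q g).card +
      (univ.filter fun k : K => Q (0, k)).card = (univ.filter fun g : H × K => Q g).card := by
    rw [← card_filter_add_card_filter_not (s := univ.filter fun g : H × K => Q g)
      (fun g : H × K => g.1 = 0), filter_filter, filter_filter, add_comm]
    congr 1
    · refine card_bij (fun k _ => ((0 : H), k)) ?_ ?_ ?_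
      · intro k hk
        rw [mem_filter] at hk ⊢
        exact ⟨mem_univ _, hk.2, rfl⟩
      · intro a _ b _ h
        exact congrArg Prod.snd h
      · rintro ⟨h, k⟩ hg
        rw [mem_filter] at hg
        obtain ⟨_, h5, h6⟩ := hg
        have h7 : h = 0 := h6
        subst h7
        exact ⟨k, mem_filter.2 ⟨mem_univ _, h5⟩, rfl⟩
    · congr 1
      ext g
      rw [mem_filter, mem_filter]
      exact ⟨fun h => ⟨h.1, h.2.2, h.2.1⟩, fun h => ⟨h.1, h.2.2, h.2.1⟩⟩
  rw [h1, h3, h4]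

/-- all pairs in the slices with `Q` of the difference, if `Q 0` -/
private theorem masterD {f : H → K} (E : Sx f) (Q : H × K → Prop) (hQ : ∀ g, Q g → 3 • g = 0)
    (h0 : Q 0) :
    ∑ v ∈ PP 3 H K, ((sl 3 f v ×ˢ sl 3 f v).filter fun z => Q (gr f z.1 - gr f z.2)).card +
      (univ.filter fun k : K => Q (0, k)).card =
        729 + (univ.filter fun g : H × K => Q g).card := by
  rw [← master E Q hQ, ← E.sum_card, ← add_assoc, ← sum_add_distrib]
  congr 1
  refine sum_congr rfl fun v _ => ?_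
  rw [← card_filter_add_card_filter_not (s := (sl 3 f v ×ˢ sl 3 f v).filter fun z =>
    Q (gr f z.1 - gr f z.2)) (fun z : H × H => z.1 = z.2), filter_filter, filter_filter]
  congr 1
  · refine (card_bij (fun x _ => (x, x)) ?_ ?_ ?_).symm
    · intro x hx
      rw [mem_filter, mem_product]
      exact ⟨⟨hx, hx⟩, by rw [sub_self]; exact h0, rfl⟩
    · intro a _ b _ h
      exact congrArg Prod.fst h
    · rintro ⟨a, b⟩ hz
      rw [mem_filter, mem_product] at hz
      obtain ⟨⟨h1, h2⟩, h3, h4⟩ := hz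
      have h5 : a = b := h4
      subst h5
      exact ⟨a, h1, rfl⟩
  · congr 1
    ext z
    rw [mem_filter, mem_filter]
    exact ⟨fun h => ⟨h.1, h.2.2, h.2.1⟩, fun h => ⟨h.1, h.2.2, h.2.1⟩⟩

private theorem master' {f : H → K} (E : Sx f) (Q : H × K → Prop) (hQ : ∀ g, Q g → 3 • g = 0)
    (F : H × K → Finset (H × H)) (hF : ∀ v ∈ PP 3 H K, ∀ z, z ∈ F v ↔
      z ∈ sl 3 f v ×ˢ sl 3 f v ∧ z.1 ≠ z.2 ∧ Q (gr f z.1 - gr f z.2))
    (A : Finset K) (hA : ∀ k, k ∈ A ↔ Q (0, k)) (B : Finset (H × K)) (hB : ∀ g, g ∈ B ↔ Q g) :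
    ∑ v ∈ PP 3 H K, (F v).card + A.card = B.card := by
  have h := master E Q hQ
  have h1 : (univ.filter fun g : H × K => Q g) = B := by
    ext g
    rw [hB g, mem_filter]
    exact ⟨fun h => h.2, fun h => ⟨mem_univ _, h⟩⟩
  have h2 : (univ.filter fun k : K => Q (0, k)) = A := by
    ext g
    rw [hA g, mem_filter]
    exact ⟨fun h => h.2, fun h => ⟨mem_univ _, h⟩⟩
  have h3 : ∀ v ∈ PP 3 H K, ((sl 3 f v ×ˢ sl 3 f v).filter fun z =>
      z.1 ≠ z.2 ∧ Q (gr f z.1 - gr f z.2)).card = (F v).card := by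
    intro v hv
    congr 1
    ext z
    rw [hF v hv z, mem_filter]
  rw [h1, h2, sum_congr rfl h3] at h
  exact h

private theorem masterD' {f : H → K} (E : Sx f) (Q : H × K → Prop) (hQ : ∀ g, Q g → 3 • g = 0)
    (h0 : Q 0) (F : H × K → Finset (H × H)) (hF : ∀ v ∈ PP 3 H K, ∀ z, z ∈ F v ↔
      z ∈ sl 3 f v ×ˢ sl 3 f v ∧ Q (gr f z.1 - gr f z.2))
    (A : Finset K) (hA : ∀ k, k ∈ A ↔ Q (0, k)) (B : Finset (H × K)) (hB : ∀ g, g ∈ B ↔ Q g) :
    ∑ v ∈ PP 3 H K, (F v).card + A.card = 729 + B.card := by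
  have h := masterD E Q hQ h0
  have h1 : (univ.filter fun g : H × K => Q g) = B := by
    ext g
    rw [hB g, mem_filter]
    exact ⟨fun h => h.2, fun h => ⟨mem_univ _, h⟩⟩
  have h2 : (univ.filter fun k : K => Q (0, k)) = A := by
    ext g
    rw [hA g, mem_filter]
    exact ⟨fun h => h.2, fun h => ⟨mem_univ _, h⟩⟩
  have h3 : ∀ v ∈ PP 3 H K, ((sl 3 f v ×ˢ sl 3 f v).filter fun z =>
      Q (gr f z.1 - gr f z.2)).card = (F v).card := by
    intro v hv
    congr 1
    ext z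
    rw [hF v hv z, mem_filter]
  rw [h1, h2, sum_congr rfl h3] at h
  exact h

theorem Sx.card_G3 {f : H → K} (E : Sx f) :
    (univ.filter fun g : H × K => 3 • g = 0).card = 19683 := by
  have : Fact (Nat.Prime 3) := ⟨Nat.prime_three⟩
  have h := Rank.card_ker (p := 3) (r := 6) (κ := 3) E.hH E.hK E.hP
  omega

theorem Sx.sum_sq {f : H → K} (E : Sx f) :
    ∑ v ∈ PP 3 H K, (sl 3 f v).card ^ 2 + (ZZ K).card = 20412 := by
  have h := masterD' E (fun g => 3 • g = 0) (fun _ h => h) (smul_zero _)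
    (fun v => sl 3 f v ×ˢ sl 3 f v) (fun v _ z => ?_) (ZZ K) (fun k => ?_)
    (univ.filter fun g : H × K => 3 • g = 0) (fun g => by rw [mem_filter]; simp)
  · rw [E.card_G3] at h
    simp only [card_product, ← sq] at h
    exact h
  · constructor
    · intro hz
      refine ⟨hz, ?_⟩
      rw [mem_product, sl, mem_filter, mem_filter] at hz
      rw [smul_sub, hz.1.2, hz.2.2, sub_self]
    · exact fun h => h.1
  · rw [ZZ, mem_filter]
    constructor
    · rintro ⟨_, h2⟩
      exact Prod.ext (smul_zero 3) h2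
    · intro h2
      exact ⟨mem_univ _, congrArg Prod.snd h2⟩

private theorem card_third {A : Type*} [AddCommGroup A] [Fintype A] (S : Finset A)
    (hS : ∀ a ∈ S, ∀ b ∈ S, a + b ∈ S) (hn : ∀ a ∈ S, ∀ n : ℕ, n • a ∈ S)
    (hm : ∀ a ∈ S, -a ∈ S) (l : A →+ ZMod 3)
    (hl : ∃ g ∈ S, l g ≠ 0) : 3 * (S.filter fun g => l g = 0).card = S.card := by
  have : Fact (Nat.Prime 3) := ⟨Nat.prime_three⟩
  obtain ⟨g0, hg0, hl0⟩ := hl
  have h1 : ∀ c : ZMod 3, (S.filter fun g => l g = c).card = (S.filter fun g => l g = 0).card := by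
    intro c
    set n : ℕ := (c * (l g0)⁻¹).val with hn'
    have h2 : l (n • g0) = c := by
      rw [map_nsmul, nsmul_eq_mul, hn', ZMod.natCast_val, ZMod.cast_id, mul_assoc,
        inv_mul_cancel₀ hl0, mul_one]
    symm
    refine card_bij (fun g _ => g + n • g0) ?_ ?_ ?_
    · intro g hg
      rw [mem_filter] at hg ⊢
      refine ⟨hS _ hg.1 _ (hn _ hg0 _), ?_⟩
      rw [map_add, hg.2, h2, zero_add]
    · intro a _ b _ h
      exact add_right_cancel h
    · intro g hg
      rw [mem_filter] at hg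
      refine ⟨g - n • g0, ?_, sub_add_cancel _ _⟩
      rw [mem_filter]
      refine ⟨?_, ?_⟩
      · rw [sub_eq_add_neg]
        exact hS _ hg.1 _ (hm _ (hn _ hg0 _))
      · rw [map_sub, hg.2, h2, sub_self]
  have h2 := card_eq_sum_card_fiberwise (s := S)
    (f := fun g => l g) (t := (univ : Finset (ZMod 3))) (fun _ _ => mem_coe.2 (mem_univ _))
  rw [sum_congr rfl (fun c _ => h1 c), sum_const, card_univ, ZMod.card, smul_eq_mul] at h2
  exact h2.symm

/-- the energy of `l`, if `l` is not `0` on `G[3]` -/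
theorem Sx.sum_Q {f : H → K} (E : Sx f) (l : H × K →+ ZMod 3)
    (hl : ∃ g : H × K, 3 • g = 0 ∧ l g ≠ 0) :
    ∑ v ∈ PP 3 H K, ∑ c, nf f v l c ^ 2 + ((ZZ K).filter fun k => l (0, k) = 0).card = 7290 := by
  have h1 : (univ.filter fun g : H × K => 3 • g = 0 ∧ l g = 0).card = 6561 := by
    have h2 := card_third (univ.filter fun g : H × K => 3 • g = 0) ?_ ?_ ?_ l ?_
    · rw [E.card_G3, filter_filter] at h2
      omega
    · intro a ha b hb
      rw [mem_filter] at ha hb ⊢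
      exact ⟨mem_univ _, by rw [smul_add, ha.2, hb.2, add_zero]⟩
    · intro a ha n
      rw [mem_filter] at ha ⊢
      exact ⟨mem_univ _, by rw [smul_comm, ha.2, smul_zero]⟩
    · intro a ha
      rw [mem_filter] at ha ⊢
      exact ⟨mem_univ _, by rw [smul_neg, ha.2, neg_zero]⟩
    · obtain ⟨g, hg, hg'⟩ := hl
      exact ⟨g, mem_filter.2 ⟨mem_univ _, hg⟩, hg'⟩
  have h := masterD' E (fun g => 3 • g = 0 ∧ l g = 0) (fun _ h => h.1)
    ⟨smul_zero _, map_zero _⟩ (fun v => (sl 3 f v ×ˢ sl 3 f v).filter fun z =>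
      l (gr f z.1) = l (gr f z.2)) (fun v _ z => ?_) ((ZZ K).filter fun k => l (0, k) = 0)
      (fun k => ?_) (univ.filter fun g : H × K => 3 • g = 0 ∧ l g = 0)
      (fun g => by rw [mem_filter]; simp)
  · rw [h1] at h
    have h3 : ∀ v ∈ PP 3 H K, ((sl 3 f v ×ˢ sl 3 f v).filter fun z =>
        l (gr f z.1) = l (gr f z.2)).card = ∑ c, nf f v l c ^ 2 := by
      intro v _
      rw [card_eq_sum_card_fiberwise (s := (sl 3 f v ×ˢ sl 3 f v).filter fun z =>
        l (gr f z.1) = l (gr f z.2))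
        (f := fun z => l (gr f z.1)) (t := (univ : Finset (ZMod 3)))
        (fun _ _ => mem_coe.2 (mem_univ _))]
      refine sum_congr rfl fun c _ => ?_
      rw [nf, sq, ← card_product]
      congr 1
      ext z
      rw [mem_filter, mem_filter, mem_product, mem_product, mem_filter, mem_filter]
      constructor
      · rintro ⟨⟨⟨h5, h6⟩, h7⟩, h8⟩
        exact ⟨⟨h5, h8⟩, h6, by rw [← h7]; exact h8⟩
      · rintro ⟨⟨h5, h6⟩, h7, h8⟩
        exact ⟨⟨⟨h5, h7⟩, by rw [h6, h8]⟩, h6⟩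
    rw [sum_congr rfl h3] at h
    exact h
  · rw [mem_filter]
    constructor
    · rintro ⟨hz, h2⟩
      refine ⟨hz, ?_, ?_⟩
      · rw [mem_product, sl, mem_filter, mem_filter] at hz
        rw [smul_sub, hz.1.2, hz.2.2, sub_self]
      · rw [map_sub, h2, sub_self]
    · rintro ⟨hz, _, h2⟩
      rw [map_sub, sub_eq_zero] at h2
      exact ⟨hz, h2⟩
  · rw [mem_filter, ZZ, mem_filter]
    constructor
    · rintro ⟨⟨_, h2⟩, h3⟩
      exact ⟨Prod.ext (smul_zero 3) h2, h3⟩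
    · rintro ⟨h2, h3⟩
      exact ⟨⟨mem_univ _, congrArg Prod.snd h2⟩, h3⟩

theorem fil_eq (l : H × K →+ ZMod 3) (h : ∃ k : K, 3 • k = 0 ∧ l (0, k) ≠ 0) :
    3 * ((ZZ K).filter fun k => l (0, k) = 0).card = (ZZ K).card := by
  refine card_third (ZZ K) ?_ ?_ ?_ (l.comp (AddMonoidHom.inr H K)) ?_
  · intro a ha b hb
    rw [ZZ, mem_filter] at ha hb ⊢
    exact ⟨mem_univ _, by rw [smul_add, ha.2, hb.2, add_zero]⟩
  · intro a ha n
    rw [ZZ, mem_filter] at ha ⊢
    exact ⟨mem_univ _, by rw [smul_comm, ha.2, smul_zero]⟩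
  · intro a ha
    rw [ZZ, mem_filter] at ha ⊢
    exact ⟨mem_univ _, by rw [smul_neg, ha.2, neg_zero]⟩
  · obtain ⟨k, hk, hk'⟩ := h
    exact ⟨k, mem_filter.2 ⟨mem_univ _, hk⟩, hk'⟩

theorem fil_ge (l : H × K →+ ZMod 3) :
    (ZZ K).card ≤ 3 * ((ZZ K).filter fun k => l (0, k) = 0).card := by
  by_cases h : ∃ k : K, 3 • k = 0 ∧ l (0, k) ≠ 0
  · exact (fil_eq l h).ge
  · push Not at h
    rw [filter_true_of_mem]
    · omega
    · intro k hk
      rw [ZZ, mem_filter] at hk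
      exact h k hk.2

private theorem card_coset {f : H → K} (E : Sx f) (g0 : H × K) :
    (univ.filter fun g : H × K => ∃ g' : H × K, 3 • g' = g - g0).card = 27 := by
  rw [← E.card_PP]
  refine card_bij (fun g _ => g - g0) ?_ ?_ ?_
  · intro g hg
    rw [mem_filter] at hg
    rw [PP, mem_filter]
    exact ⟨mem_univ _, hg.2⟩
  · intro a _ b _ h
    exact sub_left_injective h
  · intro g hg
    rw [PP, mem_filter] at hg
    refine ⟨g + g0, ?_, add_sub_cancel_right _ _⟩
    rw [mem_filter, add_sub_cancel_right]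
    exact ⟨mem_univ _, hg.2⟩

theorem Sx.col {f : H → K} (E : Sx f) :
    ∑ v ∈ PP 3 H K, ((sl 3 f v ×ˢ sl 3 f v).filter fun z =>
      z.1 ≠ z.2 ∧ ∃ g : H × K, 3 • g = gr f z.1 - gr f z.2).card + (TT K).card = 27 := by
  have h := master' E (fun g => ∃ g' : H × K, 3 • g' = g) ?_
    (fun v => (sl 3 f v ×ˢ sl 3 f v).filter fun z =>
      z.1 ≠ z.2 ∧ ∃ g : H × K, 3 • g = gr f z.1 - gr f z.2) (fun v _ z => by rw [mem_filter])
      (TT K) (fun k => ?_)
      (univ.filter fun g : H × K => ∃ g' : H × K, 3 • g' = g - 0) (fun g => by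
        rw [mem_filter, sub_zero]; simp)
  · rw [card_coset E 0] at h
    exact h
  · rintro g ⟨g', rfl⟩
    rw [smul_smul]
    exact E.h9 g'
  · rw [TT, mem_filter]
    constructor
    · rintro ⟨_, b, hb⟩
      exact ⟨(0, b), Prod.ext (smul_zero 3) hb⟩
    · rintro ⟨g, hg⟩
      exact ⟨mem_univ _, g.2, congrArg Prod.snd hg⟩

/-- a class of `G` modulo `3 G` has at most `27` ordered pairs -/
theorem Sx.prs {f : H → K} (E : Sx f) (g0 : H × K) (hg0 : 3 • g0 = 0) :
    ∑ v ∈ PP 3 H K, ((sl 3 f v ×ˢ sl 3 f v).filter fun z =>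
      z.1 ≠ z.2 ∧ ∃ g : H × K, 3 • g = gr f z.1 - gr f z.2 - g0).card ≤ 27 := by
  have h := master' E (fun g => ∃ g' : H × K, 3 • g' = g - g0) ?_
    (fun v => (sl 3 f v ×ˢ sl 3 f v).filter fun z =>
      z.1 ≠ z.2 ∧ ∃ g : H × K, 3 • g = gr f z.1 - gr f z.2 - g0) (fun v _ z => by rw [mem_filter])
      (univ.filter fun k : K => ∃ g' : H × K, 3 • g' = (0, k) - g0) (fun k => by
        rw [mem_filter]; simp)
      (univ.filter fun g : H × K => ∃ g' : H × K, 3 • g' = g - g0) (fun g => by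
        rw [mem_filter]; simp)
  · rw [card_coset E g0] at h
    omega
  · rintro g ⟨g', hg⟩
    have h1 : g = 3 • g' + g0 := by rw [hg]; abel
    rw [h1, smul_add, hg0, add_zero, smul_smul]
    exact E.h9 g'

/-- the slices over a fixed first coordinate -/
theorem Sx.coset {f : H → K} (E : Sx f) (v1 : H) (hv : v1 ∈ TT H) :
    ∑ v2 ∈ TT K, (sl 3 f (v1, v2)).card = (ZZ H).card := by
  rw [TT, mem_filter] at hv
  obtain ⟨_, b, hb⟩ := hv
  have h1 : (univ.filter fun x : H => 3 • x = v1).card = (ZZ H).card := by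
    refine (card_bij (fun x _ => x + b) ?_ ?_ ?_).symm
    · intro x hx
      rw [ZZ, mem_filter] at hx
      rw [mem_filter]
      exact ⟨mem_univ _, by rw [smul_add, hx.2, hb, zero_add]⟩
    · intro x _ y _ h
      exact add_right_cancel h
    · intro x hx
      rw [mem_filter] at hx
      refine ⟨x - b, ?_, sub_add_cancel _ _⟩
      rw [ZZ, mem_filter]
      exact ⟨mem_univ _, by rw [smul_sub, hx.2, hb, sub_self]⟩
  rw [← h1, card_eq_sum_card_fiberwise (f := fun x : H => 3 • f x) (t := TT K)]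
  · refine sum_congr rfl fun v2 _ => ?_
    congr 1
    ext x
    rw [sl, mem_filter, mem_filter, mem_filter]
    constructor
    · rintro ⟨_, h2⟩
      exact ⟨⟨mem_univ _, congrArg Prod.fst h2⟩, congrArg Prod.snd h2⟩
    · rintro ⟨⟨_, h2⟩, h3⟩
      exact ⟨mem_univ _, Prod.ext h2 h3⟩
  · intro x _
    rw [TT, coe_filter]
    exact ⟨mem_univ _, f x, rfl⟩

end Pool.Agent.H88.T6
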