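import Pool.Agent.H16.T6.Loc

/-!
# T6 Ge24 (MP_460e77_co, helper88): a quartic form with a value `1`; slices have at least `24` points

`ge24`: if `μ l l m m = 1` then the nine cells of `(l, m)` have `1 + 3 j` points, each of the 12 lines of the 3 x 3 array has at least `6` points (the rows of `l`, `m`, `l + m`, `l - m` are not zero), so the cells with `j ≥ 1`
form a blocking set: at least five cells.
`exists_one`: a non zero row without the value `1` is `- ξ ^ 2`; every six-point fibre has at least `6` ordered pairs with difference `ξ`, so there are at most `4` six-point fibres and the energy is at most `6561 + 180`.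
-/

set_option autoImplicit false

namespace Pool.Agent.H88.T6

open Finset Pool.Agent.H16.T6
open scoped Classical

variable {L X ι : Type*} [AddCommGroup L] {y : X → L →+ ZMod 3}
  {μ : L → L → L → L → ZMod 3}

private theorem sum3 (g : ZMod 3 → ℕ) : ∑ c, g c = g 0 + g 1 + g 2 := Fin.sum_univ_three g

private theorem sumz3 (g : ZMod 3 → ZMod 3) : ∑ c, g c = g 0 + g 1 + g 2 := Fin.sum_univ_three g

private theorem line {S : Finset X} (l m : L) (P : X → Prop) [DecidablePred P]
    (g : ZMod 3 → ZMod 3) (hP : ∀ x, P x ↔ y x m = g (y x l)) :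
    (S.filter P).card = cell S y l m 0 (g 0) + cell S y l m 1 (g 1) + cell S y l m 2 (g 2) := by
  rw [← sum3 fun c => cell S y l m c (g c), card_eq_sum_card_fiberwise (s := S.filter P)
    (f := fun x => y x l) (t := (univ : Finset (ZMod 3))) (fun _ _ => mem_coe.2 (mem_univ _))]
  refine sum_congr rfl fun c _ => ?_
  rw [cell]
  congr 1
  ext x
  rw [mem_filter, mem_filter, mem_filter, hP x]
  constructor
  · rintro ⟨⟨h1, h2⟩, h3⟩
    exact ⟨h1, h3, by rw [h2, h3]⟩
  · rintro ⟨h1, h2, h3⟩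
    exact ⟨⟨h1, by rw [h3, h2]⟩, h2⟩

private theorem line' {S : Finset X} (l m : L) (c : ZMod 3) :
    N S y l c = cell S y l m c 0 + cell S y l m c 1 + cell S y l m c 2 := by
  rw [← sum3 fun d => cell S y l m c d, N,
    card_eq_sum_card_fiberwise (s := S.filter fun x => y x l = c)
    (f := fun x => y x m) (t := (univ : Finset (ZMod 3))) (fun _ _ => mem_coe.2 (mem_univ _))]
  refine sum_congr rfl fun d _ => ?_
  rw [cell]
  congr 1
  ext x
  rw [mem_filter, mem_filter, mem_filter]
  exact ⟨fun h => ⟨h.1.1, h.1.2, h.2⟩, fun h => ⟨⟨h.1, h.2.1⟩, h.2.2⟩⟩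

private theorem blk : ∀ a b c d e f g h i : Bool,
    (a || b || c) = true → (d || e || f) = true → (g || h || i) = true →
    (a || d || g) = true → (b || e || h) = true → (c || f || i) = true →
    (a || e || i) = true → (b || f || g) = true → (c || d || h) = true →
    (a || f || h) = true → (b || d || i) = true → (c || e || g) = true →
    5 ≤ a.toNat + b.toNat + c.toNat + d.toNat + e.toNat + f.toNat + g.toNat + h.toNat + i.toNat := by
  decide

private theorem blkn (a b c d e f g h i : ℕ) (ha : a % 3 = 1) (hb : b % 3 = 1) (hc : c % 3 = 1)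
    (hd : d % 3 = 1) (he : e % 3 = 1) (hf : f % 3 = 1) (hg : g % 3 = 1) (hh : h % 3 = 1)
    (hi : i % 3 = 1)
    (h1 : 6 ≤ a + b + c) (h2 : 6 ≤ d + e + f) (h3 : 6 ≤ g + h + i)
    (h4 : 6 ≤ a + d + g) (h5 : 6 ≤ b + e + h) (h6 : 6 ≤ c + f + i)
    (h7 : 6 ≤ a + e + i) (h8 : 6 ≤ b + f + g) (h9 : 6 ≤ c + d + h)
    (h10 : 6 ≤ a + f + h) (h11 : 6 ≤ b + d + i) (h12 : 6 ≤ c + e + g) :
    24 ≤ a + b + c + d + e + f + g + h + i := by
  have key : ∀ n : ℕ, n % 3 = 1 → 1 + 3 * (decide (4 ≤ n)).toNat ≤ n := by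
    intro n hn
    by_cases h : 4 ≤ n
    · rw [decide_eq_true h]
      simp only [Bool.toNat_true]
      omega
    · rw [decide_eq_false h]
      simp only [Bool.toNat_false]
      omega
  have or3 : ∀ u v w : ℕ, u % 3 = 1 → v % 3 = 1 → w % 3 = 1 → 6 ≤ u + v + w →
      (decide (4 ≤ u) || decide (4 ≤ v) || decide (4 ≤ w)) = true := by
    intro u v w hu hv hw h
    rw [Bool.or_eq_true, Bool.or_eq_true, decide_eq_true_eq, decide_eq_true_eq, decide_eq_true_eq]
    omega
  have h0 := blk (decide (4 ≤ a)) (decide (4 ≤ b)) (decide (4 ≤ c)) (decide (4 ≤ d))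
    (decide (4 ≤ e)) (decide (4 ≤ f)) (decide (4 ≤ g)) (decide (4 ≤ h)) (decide (4 ≤ i))
    (or3 _ _ _ ha hb hc h1) (or3 _ _ _ hd he hf h2) (or3 _ _ _ hg hh hi h3)
    (or3 _ _ _ ha hd hg h4) (or3 _ _ _ hb he hh h5) (or3 _ _ _ hc hf hi h6)
    (or3 _ _ _ ha he hi h7) (or3 _ _ _ hb hf hg h8) (or3 _ _ _ hc hd hh h9)
    (or3 _ _ _ ha hf hh h10) (or3 _ _ _ hb hd hi h11) (or3 _ _ _ hc he hg h12)
  have k1 := key a ha
  have k2 := key b hb
  have k3 := key c hc
  have k4 := key d hd
  have k5 := key e he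
  have k6 := key f hf
  have k7 := key g hg
  have k8 := key h hh
  have k9 := key i hi
  omega

private theorem mod_one {n : ℕ} (h : (n : ZMod 3) = 1) : n % 3 = 1 := by
  have h1 : ((n : ℕ) : ZMod 3) = ((1 : ℕ) : ZMod 3) := by rw [h, Nat.cast_one]
  exact (ZMod.natCast_eq_natCast_iff' n 1 3).1 h1

private theorem mod_zero {n : ℕ} (h : (n : ZMod 3) = 0) : n % 3 = 0 :=
  Nat.mod_eq_zero_of_dvd ((ZMod.natCast_eq_zero_iff n 3).1 h)

/-- a slice has at least `24` points if `μ` has a value `1` -/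
theorem ge24 {S : Finset X} (h : Slc μ S y) {l m : L} (h1 : μ l l m m = 1) : 24 ≤ S.card := by
  have hc : ∀ α β, cell S y l m α β % 3 = 1 := fun α β =>
    mod_one (by rw [cell_mod h l m α β, h1])
  have hml : μ m m l l = 1 := by
    rw [← h1, mu_swap23 h m m l l, mu_swap12 h m l m l, mu_swap34 h l m m l, mu_swap23 h l m l m]
  have hadd : ∀ a b c d : L, μ a (b + c) d d = μ a b d d + μ a c d d := by
    intro a b c d
    rw [mu_swap12 h a (b + c), mu_add h, mu_swap12 h b a, mu_swap12 h c a]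
  have hlm : μ l m m m = 0 := by
    rw [mu_swap12 h l m m m, mu_swap23 h m l m m, mu_swap34 h m m l m]
    exact mu_cube h m l
  have hsum : μ (l + m) (l + m) m m = 1 := by
    rw [mu_add h, hadd, hadd, h1, hlm, mu_swap12 h m l, hlm, mu_cube h]
    rfl
  have hdif : μ (l - m) (l - m) m m = 1 := by
    have e1 : ∀ a b d : L, μ a (-b) d d = - μ a b d d := by
      intro a b d
      rw [mu_swap12 h a (-b), mu_neg h, mu_swap12 h b a]
    rw [sub_eq_add_neg, mu_add h, hadd, hadd, mu_neg h, mu_neg h, e1, e1, h1, hlm,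
      mu_swap12 h m l, hlm, mu_cube h]
    rfl
  have one_ne : (1 : ZMod 3) ≠ 0 := by decide
  have r1 : Row μ l := ⟨m, m, by rw [h1]; exact one_ne⟩
  have r2 : Row μ m := ⟨l, l, by rw [hml]; exact one_ne⟩
  have r3 : Row μ (l + m) := ⟨m, m, by rw [hsum]; exact one_ne⟩
  have r4 : Row μ (l - m) := ⟨m, m, by rw [hdif]; exact one_ne⟩
  have L1 : ∀ c, 6 ≤ cell S y l m c 0 + cell S y l m c 1 + cell S y l m c 2 := by
    intro c
    rw [← line' l m c]
    exact fib_pos h r1 c
  have L2 : ∀ c, 6 ≤ cell S y l m 0 c + cell S y l m 1 c + cell S y l m 2 c := by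
    intro c
    have h2 := fib_pos h r2 c
    rwa [N, line l m (fun x => y x m = c) (fun _ => c) fun x => Iff.rfl] at h2
  have L3 : ∀ c : ZMod 3, 6 ≤ cell S y l m 0 (c - 0) + cell S y l m 1 (c - 1) +
      cell S y l m 2 (c - 2) := by
    intro c
    have h2 := fib_pos h r3 c
    rwa [N, line l m (fun x => y x (l + m) = c) (fun a => c - a) fun x => by
      rw [map_add]
      exact ⟨fun h => by rw [← h]; ring, fun h => by rw [h]; ring⟩] at h2
  have L4 : ∀ c : ZMod 3, 6 ≤ cell S y l m 0 (0 - c) + cell S y l m 1 (1 - c) +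
      cell S y l m 2 (2 - c) := by
    intro c
    have h2 := fib_pos h r4 c
    rwa [N, line l m (fun x => y x (l - m) = c) (fun a => a - c) fun x => by
      rw [map_sub]
      exact ⟨fun h => by rw [← h]; ring, fun h => by rw [h]; ring⟩] at h2
  have hS : S.card = cell S y l m 0 0 + cell S y l m 0 1 + cell S y l m 0 2 + cell S y l m 1 0 +
      cell S y l m 1 1 + cell S y l m 1 2 + cell S y l m 2 0 + cell S y l m 2 1 +
      cell S y l m 2 2 := by
    rw [← N_sum S y l, line' l m 0, line' l m 1, line' l m 2]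
    ring
  rw [hS]
  have a1 := L3 0
  have a2 := L3 1
  have a3 := L3 2
  have b1 := L4 0
  have b2 := L4 1
  have b3 := L4 2
  have e10 : (0 - 1 : ZMod 3) = 2 := by decide
  have e20 : (0 - 2 : ZMod 3) = 1 := by decide
  have e21 : (1 - 2 : ZMod 3) = 2 := by decide
  have e12 : (2 - 1 : ZMod 3) = 1 := by decide
  simp only [sub_zero, sub_self, e10, e20, e21, e12] at a1 a2 a3 b1 b2 b3
  have c1 := L1 0
  have c2 := L1 1
  have c3 := L1 2
  have d1 := L2 0
  have d2 := L2 1
  have d3 := L2 2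
  refine blkn _ _ _ _ _ _ _ _ _ (hc _ _) (hc _ _) (hc _ _) (hc _ _) (hc _ _) (hc _ _) (hc _ _)
    (hc _ _) (hc _ _) c1 c2 c3 d1 d2 d3 ?_ ?_ ?_ ?_ ?_ ?_ <;> omega

private theorem vsum (F : Finset X) (v : X → ZMod 3) (g : ZMod 3 → ZMod 3) :
    ∑ x ∈ F, g (v x) = ((F.filter fun x => v x = 0).card : ZMod 3) * g 0 +
      ((F.filter fun x => v x = 1).card : ZMod 3) * g 1 +
      ((F.filter fun x => v x = 2).card : ZMod 3) * g 2 := by
  rw [← sumz3 fun c => ((F.filter fun x => v x = c).card : ZMod 3) * g c,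
    ← sum_fiberwise F v fun x => g (v x)]
  refine sum_congr rfl fun c _ => ?_
  rw [sum_congr rfl (g := fun _ => g c) fun x hx => by rw [(mem_filter.1 hx).2], sum_const,
    nsmul_eq_mul]

private theorem vcard (F : Finset X) (v : X → ZMod 3) :
    (F.filter fun x => v x = 0).card + (F.filter fun x => v x = 1).card +
      (F.filter fun x => v x = 2).card = F.card := by
  rw [← sum3 fun c => (F.filter fun x => v x = c).card]
  exact (card_eq_sum_card_fiberwise (f := v) (t := (univ : Finset (ZMod 3)))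
    (fun _ _ => mem_coe.2 (mem_univ _))).symm

private theorem zc (c : ZMod 3) : c = 0 ∨ c = 1 ∨ c = 2 := by
  revert c
  decide

private theorem c222 (F : Finset X) (v : X → ZMod 3) (h6 : F.card = 6) (h1 : ∑ x ∈ F, v x = 0)
    (h2 : ∑ x ∈ F, v x * v x = 1) (c : ZMod 3) : (F.filter fun x => v x = c).card = 2 := by
  have e1 := vsum F v fun z => z
  have e2 := vsum F v fun z => z * z
  have e3 := vcard F v
  rw [h1] at e1
  rw [h2] at e2
  rw [h6] at e3
  have key : ∀ n0 n1 n2 : ℕ, (0 : ZMod 3) = (n0 : ZMod 3) * 0 + (n1 : ZMod 3) * 1 +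
      (n2 : ZMod 3) * 2 → (1 : ZMod 3) = (n0 : ZMod 3) * (0 * 0) + (n1 : ZMod 3) * (1 * 1) +
      (n2 : ZMod 3) * (2 * 2) → n0 + n1 + n2 = 6 → n0 = 2 ∧ n1 = 2 ∧ n2 = 2 := by
    intro n0 n1 n2 e1 e2 e3
    have f1 : ((n1 + 2 * n2 : ℕ) : ZMod 3) = ((0 : ℕ) : ZMod 3) := by
      push_cast; rw [e1]; ring
    have f2 : ((n1 + 4 * n2 : ℕ) : ZMod 3) = ((1 : ℕ) : ZMod 3) := by
      push_cast; rw [e2]; ring
    rw [ZMod.natCast_eq_natCast_iff'] at f1 f2
    omega
  obtain ⟨k0, k1, k2⟩ := key _ _ _ e1 e2 e3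
  rcases zc c with rfl | rfl | rfl
  · exact k0
  · exact k1
  · exact k2

private theorem c036 (F : Finset X) (v : X → ZMod 3) (h6 : F.card = 6) (h1 : ∑ x ∈ F, v x = 0)
    (h2 : ∑ x ∈ F, v x * v x = 0) (c : ZMod 3) : 3 ∣ (F.filter fun x => v x = c).card := by
  have e1 := vsum F v fun z => z
  have e2 := vsum F v fun z => z * z
  have e3 := vcard F v
  rw [h1] at e1
  rw [h2] at e2
  rw [h6] at e3
  have key : ∀ n0 n1 n2 : ℕ, (0 : ZMod 3) = (n0 : ZMod 3) * 0 + (n1 : ZMod 3) * 1 +
      (n2 : ZMod 3) * 2 → (0 : ZMod 3) = (n0 : ZMod 3) * (0 * 0) + (n1 : ZMod 3) * (1 * 1) +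
      (n2 : ZMod 3) * (2 * 2) → n0 + n1 + n2 = 6 → 3 ∣ n0 ∧ 3 ∣ n1 ∧ 3 ∣ n2 := by
    intro n0 n1 n2 e1 e2 e3
    have f1 : ((n1 + 2 * n2 : ℕ) : ZMod 3) = ((0 : ℕ) : ZMod 3) := by
      push_cast; rw [e1]; ring
    have f2 : ((n1 + 4 * n2 : ℕ) : ZMod 3) = ((0 : ℕ) : ZMod 3) := by
      push_cast; rw [e2]; ring
    rw [ZMod.natCast_eq_natCast_iff'] at f1 f2
    omega
  obtain ⟨k0, k1, k2⟩ := key _ _ _ e1 e2 e3
  rcases zc c with rfl | rfl | rfl
  · exact k0
  · exact k1
  · exact k2

/-- the number of ordered pairs on which `v` differs by `1` -/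
private theorem prd (A : Finset X) (v : X → ZMod 3) :
    ((A ×ˢ A).filter fun z => v z.1 - v z.2 = 1).card =
      (A.filter fun x => v x = 1).card * (A.filter fun x => v x = 0).card +
      (A.filter fun x => v x = 2).card * (A.filter fun x => v x = 1).card +
      (A.filter fun x => v x = 0).card * (A.filter fun x => v x = 2).card := by
  have h1 : ∀ c d : ZMod 3, c - d = 1 ↔ c = d + 1 := fun c d =>
    ⟨fun h => by rw [← h]; ring, fun h => by rw [h]; ring⟩
  have h := card_eq_sum_card_fiberwise (s := (A ×ˢ A).filter fun z => v z.1 - v z.2 = 1)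
    (f := fun z => v z.2) (t := (univ : Finset (ZMod 3))) (fun _ _ => mem_coe.2 (mem_univ _))
  have h2 : ∀ d : ZMod 3, (((A ×ˢ A).filter fun z => v z.1 - v z.2 = 1).filter
      fun z => v z.2 = d).card =
      (A.filter fun x => v x = d + 1).card * (A.filter fun x => v x = d).card := by
    intro d
    rw [← card_product]
    congr 1
    ext z
    rw [mem_filter, mem_filter, mem_product, mem_product, mem_filter, mem_filter, h1]
    constructor
    · rintro ⟨⟨⟨h3, h4⟩, h5⟩, h6⟩
      exact ⟨⟨h3, by rw [h5, h6]⟩, h4, h6⟩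
    · rintro ⟨⟨h3, h5⟩, h4, h6⟩
      exact ⟨⟨⟨h3, h4⟩, by rw [h5, h6]⟩, h6⟩
  rw [h, sum_congr rfl fun d _ => h2 d, sum3]
  have e0 : (0 : ZMod 3) + 1 = 1 := by decide
  have e1 : (1 : ZMod 3) + 1 = 2 := by decide
  have e2 : (2 : ZMod 3) + 1 = 0 := by decide
  rw [e0, e1, e2]

/-- a three point set on which `v` has sum `0`: constant or all three values -/
private theorem tri (A : Finset X) (v : X → ZMod 3) (h3 : A.card = 3) (hs : ∑ x ∈ A, v x = 0) :
    (∀ x ∈ A, ∀ x' ∈ A, v x = v x') ∨ ∀ c, (A.filter fun x => v x = c).card = 1 := by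
  obtain ⟨a, b, c, hab, hac, hbc, rfl⟩ := card_eq_three.1 h3
  rw [sum_insert (by simp [hab, hac]), sum_insert (by simp [hbc]), sum_singleton] at hs
  have key : ∀ p q r : ZMod 3, p + (q + r) = 0 → (p = q ∧ p = r) ∨ (p ≠ q ∧ p ≠ r ∧ q ≠ r) := by
    decide
  rcases key _ _ _ hs with ⟨h1, h2⟩ | ⟨h1, h2, h3⟩
  · left
    have h4 : ∀ x ∈ ({a, b, c} : Finset X), v x = v a := by
      intro x hx
      rw [mem_insert, mem_insert, mem_singleton] at hx
      rcases hx with rfl | rfl | rfl
      · rfl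
      · exact h1.symm
      · exact h2.symm
    intro x hx x' hx'
    rw [h4 x hx, h4 x' hx']
  · right
    have hinj : ∀ x ∈ ({a, b, c} : Finset X), ∀ x' ∈ ({a, b, c} : Finset X), v x = v x' →
        x = x' := by
      intro x hx x' hx' h
      rw [mem_insert, mem_insert, mem_singleton] at hx hx'
      rcases hx with rfl | rfl | rfl <;> rcases hx' with rfl | rfl | rfl <;>
        first
        | rfl
        | exact absurd h h1
        | exact absurd h h2
        | exact absurd h h3
        | exact absurd h.symm h1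
        | exact absurd h.symm h2
        | exact absurd h.symm h3
    have hle : ∀ d, (({a, b, c} : Finset X).filter fun x => v x = d).card ≤ 1 := by
      intro d
      rw [card_le_one]
      intro x hx x' hx'
      rw [mem_filter] at hx hx'
      exact hinj x hx.1 x' hx'.1 (by rw [hx.2, hx'.2])
    have h4 := vcard ({a, b, c} : Finset X) v
    rw [show ({a, b, c} : Finset X).card = 3 by
      rw [card_insert_of_notMem (by simp [hab, hac]), card_insert_of_notMem (by simp [hbc]),
        card_singleton]] at h4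
    have l0 := hle 0
    have l1 := hle 1
    have l2 := hle 2
    intro d
    rcases zc d with rfl | rfl | rfl <;> omega

/-- six points with second moments `ξ ^ 2` have at least six ordered pairs with difference `ξ` -/
theorem six_pairs (F : Finset X) (ξ : L →+ ZMod 3) (m1 : L) (h1 : ξ m1 = 1) (h6 : F.card = 6)
    (hs : ∀ m : L, ∑ x ∈ F, y x m = 0) (hq : ∀ m m' : L, ∑ x ∈ F, y x m * y x m' = ξ m * ξ m') :
    6 ≤ ((F ×ˢ F).filter fun z => z.1 ≠ z.2 ∧ y z.1 - y z.2 = ξ).card := by
  have hv := c222 F (fun x => y x m1) h6 (hs m1) (by rw [hq, h1, one_mul])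
  -- the pairs
  have key : ∀ x x' : X, y x m1 - y x' m1 = 1 → (∀ r : L, ξ r = 0 → y x r = y x' r) →
      x ≠ x' ∧ y x - y x' = ξ := by
    intro x x' h2 h3
    constructor
    · rintro rfl
      rw [sub_self] at h2
      exact absurd h2 (by decide)
    · ext m
      rw [AddMonoidHom.sub_apply]
      have h4 : ξ (m - (ξ m).val • m1) = 0 := by
        rw [map_sub, map_nsmul, h1, nsmul_eq_mul, mul_one, ZMod.natCast_val, ZMod.cast_id,
          sub_self]
      have h5 := h3 _ h4
      rw [map_sub, map_sub, map_nsmul, map_nsmul, nsmul_eq_mul, nsmul_eq_mul, ZMod.natCast_val,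
        ZMod.cast_id] at h5
      linear_combination h5 + ξ m * h2
  by_cases hc : ∀ r : L, ξ r = 0 → ∀ x ∈ F, ∀ x' ∈ F, y x r = y x' r
  · have h2 := prd F fun x => y x m1
    rw [hv, hv, hv] at h2
    have h3 : ((F ×ˢ F).filter fun z => y z.1 m1 - y z.2 m1 = 1) ⊆
        (F ×ˢ F).filter fun z => z.1 ≠ z.2 ∧ y z.1 - y z.2 = ξ := by
      intro z hz
      rw [mem_filter, mem_product] at hz ⊢
      exact ⟨hz.1, key _ _ hz.2 fun r hr => hc r hr _ hz.1.1 _ hz.1.2⟩
    have h4 := card_le_card h3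
    omega
  · push Not at hc
    obtain ⟨r0, hr0, x1, hx1, x2, hx2, hne⟩ := hc
    have hw := c036 F (fun x => y x r0) h6 (hs r0) (by rw [hq, hr0, mul_zero])
    set a : ZMod 3 := y x1 r0 with ha
    set b : ZMod 3 := y x2 r0 with hb
    set A : Finset X := F.filter fun x => y x r0 = a with hA
    set B : Finset X := F.filter fun x => y x r0 = b with hB
    have hdis : Disjoint A B := by
      rw [disjoint_left]
      intro x h2 h3
      rw [hA, mem_filter] at h2
      rw [hB, mem_filter] at h3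
      exact hne (h2.2.symm.trans h3.2)
    have hAF : A ⊆ F := filter_subset _ _
    have hBF : B ⊆ F := filter_subset _ _
    have hAB : (A ∪ B).card = A.card + B.card := card_union_of_disjoint hdis
    have hle : (A ∪ B).card ≤ F.card := card_le_card (union_subset hAF hBF)
    have hA3 : 3 ∣ A.card := hw a
    have hB3 : 3 ∣ B.card := hw b
    have hA0 : 0 < A.card := card_pos.2 ⟨x1, by rw [hA, mem_filter]; exact ⟨hx1, rfl⟩⟩
    have hB0 : 0 < B.card := card_pos.2 ⟨x2, by rw [hB, mem_filter]; exact ⟨hx2, rfl⟩⟩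
    have hAc : A.card = 3 := by omega
    have hBc : B.card = 3 := by omega
    have hF : A ∪ B = F := eq_of_subset_of_card_le (union_subset hAF hBF) (by omega)
    have hsum : ∀ g : X → ZMod 3, ∑ x ∈ F, g x = ∑ x ∈ A, g x + ∑ x ∈ B, g x := by
      intro g
      rw [← hF, sum_union hdis]
    have hsA : ∀ m : L, ∑ x ∈ A, y x m = 0 ∧ ∑ x ∈ B, y x m = 0 := by
      intro m
      have e1 := hs m
      have e2 := hq r0 m
      rw [hr0, zero_mul, hsum] at e2
      rw [hsum] at e1
      rw [sum_congr rfl (g := fun x => a * y x m) fun x hx => by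
          rw [hA, mem_filter] at hx; rw [hx.2],
        sum_congr (s₁ := B) rfl (g := fun x => b * y x m) fun x hx => by
          rw [hB, mem_filter] at hx; rw [hx.2], ← mul_sum, ← mul_sum] at e2
      have key2 : ∀ a b p q : ZMod 3, a ≠ b → p + q = 0 → a * p + b * q = 0 → p = 0 ∧ q = 0 := by
        decide
      exact key2 a b _ _ hne e1 e2
    have hcst : ∀ C : Finset X, C = A ∨ C = B → ∀ r : L, ξ r = 0 → ∀ x ∈ C, ∀ x' ∈ C,
        y x r = y x' r := by
      intro C hC r hr
      have hC3 : C.card = 3 := by rcases hC with rfl | rfl <;> assumption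
      have hCF : C ⊆ F := by rcases hC with rfl | rfl <;> assumption
      have hCs : ∑ x ∈ C, y x r = 0 := by
        rcases hC with rfl | rfl
        · exact (hsA r).1
        · exact (hsA r).2
      rcases tri C (fun x => y x r) hC3 hCs with h2 | h2
      · exact h2
      · exfalso
        have h3 := c036 F (fun x => y x r) h6 (hs r) (by rw [hq, hr, mul_zero])
        have h4 := vcard F fun x => y x r
        have h5 : ∀ c, 1 ≤ (F.filter fun x => y x r = c).card := by
          intro c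
          rw [← h2 c]
          exact card_le_card (filter_subset_filter _ hCF)
        have g0 := h5 0
        have g1 := h5 1
        have g2 := h5 2
        have d0 := h3 0
        have d1 := h3 1
        have d2 := h3 2
        omega
    have hpr : ∀ C : Finset X, C = A ∨ C = B →
        ((C ×ˢ C).filter fun z => y z.1 m1 - y z.2 m1 = 1).card = 3 := by
      intro C hC
      have hC3 : C.card = 3 := by rcases hC with rfl | rfl <;> assumption
      have hCF : C ⊆ F := by rcases hC with rfl | rfl <;> assumption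
      have hCs : ∑ x ∈ C, y x m1 = 0 := by
        rcases hC with rfl | rfl
        · exact (hsA m1).1
        · exact (hsA m1).2
      rcases tri C (fun x => y x m1) hC3 hCs with h2 | h2
      · exfalso
        obtain ⟨x0, hx0⟩ : C.Nonempty := card_pos.1 (by omega)
        have h3 : C ⊆ F.filter fun x => y x m1 = y x0 m1 := by
          intro x hx
          rw [mem_filter]
          exact ⟨hCF hx, h2 x hx x0 hx0⟩
        have h4 := card_le_card h3
        rw [hv, hC3] at h4
        omega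
      · rw [prd C fun x => y x m1, h2, h2, h2]
    have hdis2 : Disjoint ((A ×ˢ A).filter fun z => y z.1 m1 - y z.2 m1 = 1)
        ((B ×ˢ B).filter fun z => y z.1 m1 - y z.2 m1 = 1) := by
      rw [disjoint_left]
      intro z h2 h3
      rw [mem_filter, mem_product] at h2 h3
      exact disjoint_left.1 hdis h2.1.1 h3.1.1
    have hsub : ((A ×ˢ A).filter fun z => y z.1 m1 - y z.2 m1 = 1) ∪
        ((B ×ˢ B).filter fun z => y z.1 m1 - y z.2 m1 = 1) ⊆
        (F ×ˢ F).filter fun z => z.1 ≠ z.2 ∧ y z.1 - y z.2 = ξ := by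
      intro z hz
      rw [mem_union, mem_filter, mem_filter, mem_product, mem_product] at hz
      rw [mem_filter, mem_product]
      rcases hz with ⟨h2, h3⟩ | ⟨h2, h3⟩
      · exact ⟨⟨hAF h2.1, hAF h2.2⟩, key _ _ h3 fun r hr =>
          hcst A (Or.inl rfl) r hr _ h2.1 _ h2.2⟩
      · exact ⟨⟨hBF h2.1, hBF h2.2⟩, key _ _ h3 fun r hr =>
          hcst B (Or.inr rfl) r hr _ h2.1 _ h2.2⟩
    have h2 := card_le_card hsub
    rw [card_union_of_disjoint hdis2, hpr A (Or.inl rfl), hpr B (Or.inr rfl)] at h2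
    exact h2

private theorem sq_bd (e : ℤ) (h : e = -3 ∨ 0 ≤ e) (h12 : e ≤ 12) :
    e ^ 2 ≤ 12 * e + 45 * (if e = -3 then 1 else 0) := by
  rcases h with rfl | h
  · norm_num
  · rw [if_neg (by omega)]
    nlinarith

/-- a non zero row with enough energy has the value `1` -/
theorem exists_one {I : Finset ι} {S : ι → Finset X} (h : ∀ i ∈ I, Slc μ (S i) y)
    (hI : I.card = 27) (hs : ∑ i ∈ I, (S i).card = 729)
    (prs : ∀ k : L →+ ZMod 3,
      ∑ i ∈ I, ((S i ×ˢ S i).filter fun z => z.1 ≠ z.2 ∧ y z.1 - y z.2 = k).card ≤ 27)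
    {l : L} (hl : Row μ l) (hq : 7047 ≤ ∑ i ∈ I, Q (S i) y l) : ∃ m, μ l l m m = 1 := by
  by_contra hno
  push Not at hno
  obtain ⟨i0, hi0⟩ : I.Nonempty := card_pos.1 (by omega)
  have h0 := h i0 hi0
  -- the bilinear form
  have hsym : ∀ m m', μ l l m m' = μ l l m' m := fun m m' => mu_swap34 h0 l l m m'
  have hadd : ∀ a b m, μ l l (a + b) m = μ l l a m + μ l l b m := by
    intro a b m
    rw [mu_swap23 h0 l l (a + b) m, mu_swap12 h0 l (a + b) l m, mu_add h0,
      mu_swap12 h0 a l l m, mu_swap23 h0 l a l m, mu_swap12 h0 b l l m, mu_swap23 h0 l b l m]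
  have hadd' : ∀ a b m, μ l l m (a + b) = μ l l m a + μ l l m b := by
    intro a b m
    rw [hsym, hadd, hsym a, hsym b]
  have hval : ∀ m, μ l l m m = 0 ∨ μ l l m m = 2 := by
    intro m
    rcases zc (μ l l m m) with h1 | h1 | h1
    · exact Or.inl h1
    · exact absurd h1 (hno m)
    · exact Or.inr h1
  obtain ⟨m1, hm1⟩ : ∃ m1, μ l l m1 m1 = 2 := by
    by_contra hc
    push Not at hc
    obtain ⟨m, m', hmm⟩ := hl
    have h1 : ∀ m, μ l l m m = 0 := fun m => (hval m).resolve_right (hc m)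
    have h2 := h1 (m + m')
    rw [hadd, hadd', hadd', h1, h1, hsym m' m, zero_add, add_zero] at h2
    have key : ∀ z : ZMod 3, z + z = 0 → z = 0 := by decide
    exact hmm (key _ h2)
  have hrad : ∀ r, μ l l m1 r = 0 → ∀ r', μ l l m1 r' = 0 → μ l l r r' = 0 := by
    have hz : ∀ r, μ l l m1 r = 0 → μ l l r r = 0 := by
      intro r hr
      rcases hval r with h1 | h1
      · exact h1
      · exfalso
        apply hno (m1 + r)
        rw [hadd, hadd', hadd', hm1, hr, hsym r m1, hr, h1]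
        decide
    intro r hr r' hr'
    have h2 := hz (r + r') (by rw [hadd', hr, hr', zero_add])
    rw [hadd, hadd', hadd', hz r hr, hz r' hr', hsym r' r, zero_add, add_zero] at h2
    have key : ∀ z : ZMod 3, z + z = 0 → z = 0 := by decide
    exact key _ h2
  obtain ⟨ξ, hξ⟩ : ∃ ξ : L →+ ZMod 3, ∀ m, ξ m = - μ l l m1 m :=
    ⟨AddMonoidHom.mk' (fun m => - μ l l m1 m) fun a b => by rw [hadd']; ring, fun m => rfl⟩
  have hξ1 : ξ m1 = 1 := by
    rw [hξ, hm1]
    decide
  have hnsm : ∀ (n : ℕ) (m m' : L), μ l l m (n • m') = n * μ l l m m' := by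
    intro n m m'
    have h1 := map_nsmul (AddMonoidHom.mk' (fun m' => μ l l m m') fun a b => hadd' a b m) n m'
    rw [nsmul_eq_mul] at h1
    exact h1
  have hnsm' : ∀ (n : ℕ) (m m' : L), μ l l (n • m) m' = n * μ l l m m' := by
    intro n m m'
    rw [hsym, hnsm, hsym]
  have hform : ∀ m m', - μ l l m m' = ξ m * ξ m' := by
    intro m m'
    have e1 : μ l l m1 (m + (μ l l m1 m).val • m1) = 0 := by
      rw [hadd', hnsm, ZMod.natCast_val, ZMod.cast_id, hm1]
      generalize μ l l m1 m = z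
      revert z
      decide
    have e2 : μ l l m1 (m' + (μ l l m1 m').val • m1) = 0 := by
      rw [hadd', hnsm, ZMod.natCast_val, ZMod.cast_id, hm1]
      generalize μ l l m1 m' = z
      revert z
      decide
    have e3 := hrad _ e1 _ e2
    simp only [hadd, hadd', hnsm, hnsm', hm1, ZMod.natCast_val, ZMod.cast_id', id_eq] at e3
    rw [hsym m m1] at e3
    rw [hξ, hξ]
    generalize μ l l m1 m = p at e3 ⊢
    generalize μ l l m1 m' = q at e3 ⊢
    generalize μ l l m m' = r at e3 ⊢
    revert e3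
    revert p q r
    decide
  -- six-point fibres
  have hfib : ∀ i ∈ I, ∀ c, N (S i) y l c = 6 →
      6 ≤ ((((S i).filter fun x => y x l = c) ×ˢ ((S i).filter fun x => y x l = c)).filter
        fun z => z.1 ≠ z.2 ∧ y z.1 - y z.2 = ξ).card := by
    intro i hi c h6
    refine six_pairs _ ξ m1 hξ1 h6 (fun m => fib_one (h i hi) l m c) fun m m' => ?_
    rw [fib_two (h i hi) l m m' c, hform]
  have hsix : 6 * ∑ i ∈ I, (if N (S i) y l 0 = 6 then 1 else 0) +
      6 * ∑ i ∈ I, (if N (S i) y l 1 = 6 then 1 else 0) +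
      6 * ∑ i ∈ I, (if N (S i) y l 2 = 6 then 1 else 0) ≤ 27 := by
    refine le_trans ?_ (prs ξ)
    rw [mul_sum, mul_sum, mul_sum, ← sum_add_distrib, ← sum_add_distrib]
    refine sum_le_sum fun i hi => ?_
    have hcs : ∀ c, 6 * (if N (S i) y l c = 6 then 1 else 0) ≤
        (((S i ×ˢ S i).filter fun z => z.1 ≠ z.2 ∧ y z.1 - y z.2 = ξ).filter
          fun z => y z.1 l = c).card := by
      intro c
      split_ifs with h6
      · rw [mul_one]
        refine (hfib i hi c h6).trans (card_le_card ?_)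
        intro z hz
        rw [mem_filter, mem_product, mem_filter, mem_filter] at hz
        rw [mem_filter, mem_filter, mem_product]
        exact ⟨⟨⟨hz.1.1.1, hz.1.2.1⟩, hz.2⟩, hz.1.1.2⟩
      · rw [mul_zero]
        exact Nat.zero_le _
    have h4 := card_eq_sum_card_fiberwise
      (s := (S i ×ˢ S i).filter fun z => z.1 ≠ z.2 ∧ y z.1 - y z.2 = ξ)
      (f := fun z => y z.1 l) (t := (univ : Finset (ZMod 3))) (fun _ _ => mem_coe.2 (mem_univ _))
    rw [h4, sum3]
    exact Nat.add_le_add (Nat.add_le_add (hcs 0) (hcs 1)) (hcs 2)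
  -- the excesses
  set e : ι → ZMod 3 → ℤ := fun i c => (N (S i) y l c : ℤ) - 9 with he
  have hcase : ∀ i ∈ I, ∀ c, e i c = -3 ∨ 0 ≤ e i c := by
    intro i hi c
    have h1 := fib_pos (h i hi) hl c
    have h2 := N_dvd (h i hi) l c
    simp only [he]
    omega
  have h6e : ∀ i c, (e i c = -3) = (N (S i) y l c = 6) := by
    intro i c
    simp only [he]
    refine propext ⟨fun h => by omega, fun h => by omega⟩
  have hsum : ∑ i ∈ I, (e i 0 + e i 1 + e i 2) = 0 := by
    have h1 : ∀ i ∈ I, e i 0 + e i 1 + e i 2 = ((S i).card : ℤ) - 27 := by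
      intro i _
      have h2 := N_sum (S i) y l
      simp only [he]
      omega
    rw [sum_congr rfl h1, sum_sub_distrib, sum_const, hI, nsmul_eq_mul]
    have h2 : ((∑ i ∈ I, (S i).card : ℕ) : ℤ) = 729 := by rw [hs]; norm_num
    rw [Nat.cast_sum] at h2
    rw [h2]
    norm_num
  have hn3 : ∑ i ∈ I, ((if e i 0 = -3 then (1 : ℤ) else 0) + (if e i 1 = -3 then 1 else 0) +
      (if e i 2 = -3 then 1 else 0)) ≤ 4 := by
    simp only [h6e]
    have h1 : ((6 * ∑ i ∈ I, (if N (S i) y l 0 = 6 then 1 else 0) +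
      6 * ∑ i ∈ I, (if N (S i) y l 1 = 6 then 1 else 0) +
      6 * ∑ i ∈ I, (if N (S i) y l 2 = 6 then 1 else 0) : ℕ) : ℤ) ≤ ((27 : ℕ) : ℤ) :=
      Int.ofNat_le.2 hsix
    push_cast at h1
    rw [sum_add_distrib, sum_add_distrib]
    omega
  have hpos : ∀ i ∈ I, ∀ c, 0 ≤ e i c + 3 * (if e i c = -3 then (1 : ℤ) else 0) := by
    intro i hi c
    rcases hcase i hi c with h1 | h1
    · rw [if_pos h1]
      omega
    · rw [if_neg (by omega)]
      omega
  have hall : ∑ i ∈ I, ((e i 0 + 3 * (if e i 0 = -3 then (1 : ℤ) else 0)) +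
      (e i 1 + 3 * (if e i 1 = -3 then (1 : ℤ) else 0)) +
      (e i 2 + 3 * (if e i 2 = -3 then (1 : ℤ) else 0))) ≤ 12 := by
    have h1 : ∑ i ∈ I, ((e i 0 + 3 * (if e i 0 = -3 then (1 : ℤ) else 0)) +
      (e i 1 + 3 * (if e i 1 = -3 then (1 : ℤ) else 0)) +
      (e i 2 + 3 * (if e i 2 = -3 then (1 : ℤ) else 0))) = ∑ i ∈ I, (e i 0 + e i 1 + e i 2) +
      3 * ∑ i ∈ I, ((if e i 0 = -3 then (1 : ℤ) else 0) + (if e i 1 = -3 then 1 else 0) +
      (if e i 2 = -3 then 1 else 0)) := by
      rw [mul_sum, ← sum_add_distrib]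
      exact sum_congr rfl fun i _ => by ring
    rw [h1, hsum]
    linarith
  have h12 : ∀ i ∈ I, ∀ c, e i c ≤ 12 := by
    intro i hi c
    have h1 := single_le_sum (f := fun i => (e i 0 + 3 * (if e i 0 = -3 then (1 : ℤ) else 0)) +
      (e i 1 + 3 * (if e i 1 = -3 then (1 : ℤ) else 0)) +
      (e i 2 + 3 * (if e i 2 = -3 then (1 : ℤ) else 0)))
      (fun j hj => by
        have g0 := hpos j hj 0
        have g1 := hpos j hj 1
        have g2 := hpos j hj 2
        show (0 : ℤ) ≤ _ + _ + _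
        linarith) hi
    have g0 := hpos i hi 0
    have g1 := hpos i hi 1
    have g2 := hpos i hi 2
    have hz : ∀ c, (0 : ℤ) ≤ 3 * (if e i c = -3 then (1 : ℤ) else 0) := by
      intro c
      split_ifs <;> norm_num
    have z0 := hz 0
    have z1 := hz 1
    have z2 := hz 2
    have h2 := h1.trans hall
    rcases zc c with rfl | rfl | rfl <;> linarith
  have hQ : ∀ i ∈ I, ((Q (S i) y l : ℕ) : ℤ) ≤ 243 + 30 * (e i 0 + e i 1 + e i 2) +
      45 * ((if e i 0 = -3 then (1 : ℤ) else 0) + (if e i 1 = -3 then 1 else 0) +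
      (if e i 2 = -3 then 1 else 0)) := by
    intro i hi
    have hn : ∀ c, ((N (S i) y l c : ℕ) : ℤ) = e i c + 9 := fun c => by simp only [he]; ring
    rw [Q]
    push_cast
    rw [hn, hn, hn]
    have b0 := sq_bd _ (hcase i hi 0) (h12 i hi 0)
    have b1 := sq_bd _ (hcase i hi 1) (h12 i hi 1)
    have b2 := sq_bd _ (hcase i hi 2) (h12 i hi 2)
    linarith
  have hfin := sum_le_sum hQ
  rw [sum_add_distrib, sum_add_distrib, sum_const, hI, ← mul_sum, ← mul_sum, hsum] at hfin
  have hqz : (7047 : ℤ) ≤ ∑ i ∈ I, ((Q (S i) y l : ℕ) : ℤ) := by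
    rw [← Nat.cast_sum]
    exact_mod_cast hq
  rw [nsmul_eq_mul] at hfin
  push_cast at hfin
  linarith

end Pool.Agent.H88.T6
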