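import Pool.Agent.H16.T6.Sit6
import Pool.Agent.H88.T6.En
import Pool.Agent.H88.T6.Ge24

/-!
# T6 Fin (MP_460e77_co, helper88): the energies for the situation `Sit6`

(e1) - (e6) of helper16: sizes, energies of the functionals, collisions, pairs with a given difference, `24` points.
-/

set_option autoImplicit false

namespace Pool.Agent.H88.T6

open Finset Pool.Agent.H88.Pl Pool.Agent.H16.RB Pool.Agent.H38.RX Pool.Agent.H38.T35
  Pool.Agent.H16.T6
open scoped Classical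

variable {H K : Type*} [AddCommGroup H] [AddCommGroup K] [Fintype H] [Fintype K] {f : H → K}
  {μ : (H × K →+ ZMod 3) → (H × K →+ ZMod 3) → (H × K →+ ZMod 3) → (H × K →+ ZMod 3) → ZMod 3}

theorem sx (E : Sit6 f μ) : Sx f := ⟨E.hH, E.hK, E.hf, E.h9, E.hP⟩

/-- (e1) -/
theorem card_PP (E : Sit6 f μ) : (PP 3 H K).card = 27 := (sx E).card_PP

/-- (e1) -/
theorem sum_card (E : Sit6 f μ) : ∑ v ∈ PP 3 H K, (sl 3 f v).card = 729 := (sx E).sum_card

theorem Q_eq (v : H × K) (l : H × K →+ ZMod 3) :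
    Q (sl 3 f v) (yy f) l = ∑ c, nf f v l c ^ 2 := by
  have h : ∑ c, nf f v l c ^ 2 = nf f v l 0 ^ 2 + nf f v l 1 ^ 2 + nf f v l 2 ^ 2 :=
    Fin.sum_univ_three fun c => nf f v l c ^ 2
  rw [h]
  rfl

theorem exists_of_notMem {l : H × K →+ ZMod 3} (hl : l ∉ D1 H K) :
    ∃ g : H × K, 3 • g = 0 ∧ l g ≠ 0 := by
  rw [mem_D1] at hl
  push Not at hl
  exact hl

theorem sum_Q (E : Sit6 f μ) {l : H × K →+ ZMod 3} (hl : l ∉ D1 H K) :
    ∑ v ∈ PP 3 H K, Q (sl 3 f v) (yy f) l + ((ZZ K).filter fun k => l (0, k) = 0).card = 7290 := by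
  rw [sum_congr rfl fun v _ => Q_eq v l]
  exact (sx E).sum_Q l (exists_of_notMem hl)

/-- `|3 K|` is `1`, `3`, `9` or `27` -/
theorem card_K (E : Sit6 f μ) :
    ((TT K).card = 1 ∧ (ZZ K).card = 729 ∧ (TT H).card = 27 ∧ (ZZ H).card = 27) ∨
      ((TT K).card = 3 ∧ (ZZ K).card = 243 ∧ (TT H).card = 9 ∧ (ZZ H).card = 81) ∨
      ((TT K).card = 9 ∧ (ZZ K).card = 81 ∧ (TT H).card = 3 ∧ (ZZ H).card = 243) ∨
      ((TT K).card = 27 ∧ (ZZ K).card = 27 ∧ (TT H).card = 1 ∧ (ZZ H).card = 729) := by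
  obtain ⟨h1, h2, h3⟩ := (sx E).cards
  have h4 : (TT K).card ∣ 3 ^ 3 := ⟨(TT H).card, by rw [mul_comm, h1]; norm_num⟩
  obtain ⟨j, hj, h5⟩ := (Nat.dvd_prime_pow Nat.prime_three).1 h4
  rw [h5] at h1 h3 ⊢
  generalize (TT H).card = a at *
  generalize (ZZ H).card = b at *
  generalize (ZZ K).card = c at *
  interval_cases j
  · obtain rfl : a = 27 := by omega
    omega
  · obtain rfl : a = 9 := by omega
    omega
  · obtain rfl : a = 3 := by omega
    omega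
  · obtain rfl : a = 1 := by omega
    omega

/-- (e2), always -/
theorem Q_ge (E : Sit6 f μ) {l : H × K →+ ZMod 3} (hl : l ∉ D1 H K) :
    7047 ≤ ∑ v ∈ PP 3 H K, Q (sl 3 f v) (yy f) l := by
  have h := sum_Q E hl
  have hle : ((ZZ K).filter fun k => l (0, k) = 0).card ≤ (ZZ K).card :=
    card_le_card (filter_subset _ _)
  rcases card_K E with ⟨-, h2, h3, h4⟩ | ⟨-, h2, -⟩ | ⟨-, h2, -⟩ | ⟨-, h2, -⟩
  · -- `H[3] = 3 H`, so `l` is not zero on `K[3]`
    have h5 : TT H = ZZ H := by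
      refine eq_of_subset_of_card_le ?_ (by rw [h3, h4])
      intro a ha
      rw [TT, mem_filter] at ha
      obtain ⟨_, b, rfl⟩ := ha
      rw [ZZ, mem_filter]
      refine ⟨mem_univ _, ?_⟩
      rw [smul_smul]
      exact congrArg Prod.fst (E.h9 (b, 0))
    obtain ⟨g, hg, hlg⟩ := exists_of_notMem hl
    have h6 : ∃ k : K, 3 • k = 0 ∧ l (0, k) ≠ 0 := by
      refine ⟨g.2, congrArg Prod.snd hg, ?_⟩
      have h7 : g.1 ∈ ZZ H := by
        rw [ZZ, mem_filter]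
        exact ⟨mem_univ _, congrArg Prod.fst hg⟩
      rw [← h5, TT, mem_filter] at h7
      obtain ⟨_, b, hb⟩ := h7
      have h8 : g = 3 • ((b, 0) : H × K) + (0, g.2) := by
        refine Prod.ext ?_ ?_
        · show g.1 = 3 • b + 0
          rw [hb, add_zero]
        · show g.2 = 3 • (0 : K) + g.2
          rw [smul_zero, zero_add]
      intro h9
      apply hlg
      rw [h8, map_add, h9, map_nsmul, add_zero, nsmul_eq_mul]
      rw [ZMod.natCast_self, zero_mul]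
    have h7 := fil_eq l h6
    omega
  · omega
  · omega
  · omega

/-- (e2), `t = 0` -/
theorem Q_eq0 (E : Sit6 f μ) (h0 : (TT K).card = 1) {l : H × K →+ ZMod 3} (hl : l ∉ D1 H K) :
    ∑ v ∈ PP 3 H K, Q (sl 3 f v) (yy f) l = 7047 := by
  have h := sum_Q E hl
  have h1 := Q_ge E hl
  have h2 := fil_ge (H := H) l
  rcases card_K E with ⟨h3, h4, -⟩ | ⟨h3, -⟩ | ⟨h3, -⟩ | ⟨h3, -⟩ <;> omega

/-- (e2), `t = 1, 2` -/
theorem Q_le (E : Sit6 f μ) (h9 : (TT K).card ≤ 9) {l : H × K →+ ZMod 3} (hl : l ∉ D1 H K) :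
    ∑ v ∈ PP 3 H K, Q (sl 3 f v) (yy f) l ≤ 7263 := by
  have h := sum_Q E hl
  have h2 := fil_ge (H := H) l
  rcases card_K E with ⟨h3, h4, -⟩ | ⟨h3, h4, -⟩ | ⟨h3, h4, -⟩ | ⟨h3, h4, -⟩ <;> omega

theorem yy_sub_iff (x x' : H) (g0 : H × K) (h : ∀ l : H × K →+ ZMod 3,
    l (gr f x) - l (gr f x') = l g0) :
    ∃ g : H × K, 3 • g = gr f x - gr f x' - g0 := by
  have : Fact (Nat.Prime 3) := ⟨Nat.prime_three⟩
  refine sep _ fun l => ?_
  rw [map_sub, map_sub, h l, sub_self]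

/-- (e3) -/
theorem sum_col (E : Sit6 f μ) : ∑ v ∈ PP 3 H K, col (sl 3 f v) (yy f) + (TT K).card = 27 := by
  rw [← (sx E).col]
  congr 1
  refine sum_congr rfl fun v _ => ?_
  rw [H16.T6.col]
  congr 1
  ext z
  rw [mem_filter, mem_filter]
  refine and_congr_right fun _ => and_congr_right fun _ => ?_
  constructor
  · intro h
    obtain ⟨g, hg⟩ := yy_sub_iff (f := f) z.1 z.2 0 fun l => by
      rw [map_zero, sub_eq_zero]
      exact DFunLike.congr_fun h l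
    exact ⟨g, by rw [hg, sub_zero]⟩
  · rintro ⟨g, hg⟩
    ext l
    rw [yy_apply, yy_apply, ← sub_eq_zero, ← map_sub, ← hg, map_nsmul, nsmul_eq_mul]
    rw [ZMod.natCast_self, zero_mul]

theorem col_le (E : Sit6 f μ) : ∑ v ∈ PP 3 H K, col (sl 3 f v) (yy f) ≤ 26 := by
  have h := sum_col E
  rcases card_K E with ⟨h3, -⟩ | ⟨h3, -⟩ | ⟨h3, -⟩ | ⟨h3, -⟩ <;> omega

theorem col_eq0 (E : Sit6 f μ) (h0 : (TT K).card = 1) :
    ∑ v ∈ PP 3 H K, col (sl 3 f v) (yy f) = 26 := by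
  have h := sum_col E
  omega

/-- pairs with a given difference -/
theorem prs (E : Sit6 f μ) (k : (H × K →+ ZMod 3) →+ ZMod 3) :
    ∑ v ∈ PP 3 H K, ((sl 3 f v ×ˢ sl 3 f v).filter fun z =>
      z.1 ≠ z.2 ∧ yy f z.1 - yy f z.2 = k).card ≤ 27 := by
  by_cases hk : ∃ v ∈ PP 3 H K, ((sl 3 f v ×ˢ sl 3 f v).filter fun z =>
      z.1 ≠ z.2 ∧ yy f z.1 - yy f z.2 = k).Nonempty
  · obtain ⟨v, -, ⟨a, b⟩, hab⟩ := hk
    rw [mem_filter, mem_product, sl, mem_filter, mem_filter] at hab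
    obtain ⟨⟨⟨_, ha⟩, _, hb⟩, _, h1⟩ := hab
    have h3 : 3 • (gr f a - gr f b) = 0 := by
      rw [smul_sub]
      exact sub_eq_zero.2 (ha.trans hb.symm)
    refine le_trans ?_ ((sx E).prs (gr f a - gr f b) h3)
    refine sum_le_sum fun v _ => card_le_card ?_
    intro z hz
    rw [mem_filter] at hz ⊢
    refine ⟨hz.1, hz.2.1, ?_⟩
    refine yy_sub_iff (f := f) z.1 z.2 _ fun l => ?_
    have h4 := DFunLike.congr_fun hz.2.2 l
    have h5 := DFunLike.congr_fun h1 l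
    rw [AddMonoidHom.sub_apply, yy_apply, yy_apply] at h4 h5
    rw [h4, ← h5, map_sub]
  · push Not at hk
    rw [sum_eq_zero]
    · omega
    · intro v hv
      rw [hk v hv, card_empty]

/-- (e4) -/
theorem exists_one' (E : Sit6 f μ) (hr : ∃ l, Row μ l) : ∃ l m, μ l l m m = 1 := by
  obtain ⟨l, hl⟩ := hr
  by_cases hD : l ∈ D1 H K
  · -- a functional in `D1` is constant on every slice
    exfalso
    obtain ⟨m, m', hm⟩ := hl
    apply hm
    have hpp : 0 < (PP 3 H K).card := by rw [card_PP E]; norm_num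
    obtain ⟨v, hv⟩ := card_pos.1 hpp
    have h := E.slc v hv
    rw [← h.quart]
    by_cases hne : (sl 3 f v).Nonempty
    · obtain ⟨x0, hx0⟩ := hne
      have hc : ∀ x ∈ sl 3 f v, yy f x l = yy f x0 l := by
        intro x hx
        rw [sl, mem_filter] at hx hx0
        have h1 : 3 • (gr f x - gr f x0) = 0 := by
          rw [smul_sub]
          exact sub_eq_zero.2 (hx.2.trans hx0.2.symm)
        have h2 := hD _ h1
        rw [map_sub, sub_eq_zero] at h2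
        exact h2
      rw [sum_congr rfl (g := fun x => yy f x0 l * yy f x0 l * (yy f x m * yy f x m')) fun x hx => by
        rw [hc x hx]; ring, ← mul_sum, sum_yy h, mul_zero]
    · rw [not_nonempty_iff_eq_empty] at hne
      rw [hne, sum_empty]
  · obtain ⟨m, hm⟩ := exists_one (fun v hv => E.slc v hv) (card_PP E) (sum_card E) (prs E) hl
      (Q_ge E hD)
    exact ⟨l, m, hm⟩

/-- (e5) -/
theorem ge24' (E : Sit6 f μ) (hr : ∃ l, Row μ l) : ∀ v ∈ PP 3 H K, 24 ≤ (sl 3 f v).card := by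
  obtain ⟨l, m, h⟩ := exists_one' E hr
  exact fun v hv => ge24 (E.slc v hv) h

/-- (e6) -/
theorem all27 (E : Sit6 f μ) (h27 : ∀ v ∈ PP 3 H K, 27 ≤ (sl 3 f v).card) :
    (∀ v ∈ PP 3 H K, (sl 3 f v).card = 27) ∧ (TT K).card = 1 := by
  have h1 : ∀ v ∈ PP 3 H K, 27 = (sl 3 f v).card := by
    refine (sum_eq_sum_iff_of_le h27).1 ?_
    rw [sum_card E, sum_const, card_PP E]
    norm_num
  refine ⟨fun v hv => (h1 v hv).symm, ?_⟩
  have h2 := (sx E).sum_sq
  rw [sum_congr rfl (g := fun _ => 27 ^ 2) fun v hv => by rw [← h1 v hv], sum_const,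
    card_PP E] at h2
  norm_num at h2
  rcases card_K E with ⟨h3, -⟩ | ⟨h3, h4, -⟩ | ⟨h3, h4, -⟩ | ⟨h3, h4, -⟩
  · exact h3
  all_goals omega

end Pool.Agent.H88.T6
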